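import Pool.Agent.Mg.F436a94p.G68b493
import Pool.Agent.Mg.F436a94p.G9089d4
import Pool.Agent.Mg.F436a94p.Gd672be
import Pool.Agent.Mg.F436a94p.G64853e
import Pool.Agent.Mg.F436a94p.G3f7bdf
import Pool.Agent.Mg.F436a94p.G86ca9c

/-!
Squarefree values of `p_n ^ 3 + 2 * p_k ^ 3`, `k < n`: asymptotic proportion.
-/

open Filter Topology Pool.Agent.MP_971f68_nt

theorem Pool.Agent.Results.MP_971f68_nt.SqFree.result : ∃ c : ℝ, 0 < c ∧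
    Tendsto (fun D : ℕ => ∏ l ∈ (Finset.range D).filter Nat.Prime,
      (1 - (((Finset.range (l ^ 2)).filter fun x => l ^ 2 ∣ x ^ 3 + 2).card : ℝ) /
        ((l : ℝ) * ((l : ℝ) - 1)))) atTop (𝓝 c) ∧
    Tendsto (fun n : ℕ => (((Finset.range n).filter fun k =>
      Squarefree (Nat.nth Nat.Prime n ^ 3 + 2 * Nat.nth Nat.Prime k ^ 3)).card : ℝ) / n)
      atTop (𝓝 c) := by
  obtain ⟨c, c0, hc⟩ := s_Pr s_Rho
  have hD := s_Dv s_AP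
  have hC := s_Cov s_Rep s_Fib
  exact ⟨c, c0, hc, s_Fin s_AP c (s_Asm (s_S1 hD s_Rho) (s_S2 s_Rho) (s_S3 hC s_Sq s_AP)
    (s_At (s_TK hD s_Rho) s_Rho) (s_Ty hC (s_Sv s_Box) s_L0 s_L1 s_L2) (s_Par s_Ab s_Sp)
    (s_Mn hD s_Rho) hc)⟩
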